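import Mathlib
import Pool.Agent.H19.Tensor

open Pool.Agent.H19.Tensor

theorem Pool.Agent.Results.MP_176834_co.NoCondB.result (F : Type*) [Field F] :
    ¬ CondB F := by
  rintro ⟨c, b, s, t, -, hst, hc, hf⟩
  obtain ⟨f, ⟨-, -, -, -, hmono⟩, hq, -⟩ := hf s ⟨le_rfl, hst.le⟩
  have hpos : ∀ n : ℕ, (2 : ℚ) ≤ 2 + 1 / ((n : ℚ) + 1) := fun n => by
    have : (0 : ℚ) < 1 / ((n : ℚ) + 1) := by positivity
    linarith
  have hlt : ∀ n : ℕ, (2 : ℚ) + 1 / (((n + 1 : ℕ) : ℚ) + 1) < 2 + 1 / ((n : ℚ) + 1) := fun n => by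
    have : 1 / (((n + 1 : ℕ) : ℚ) + 1) < 1 / ((n : ℚ) + 1) := by
      apply one_div_lt_one_div_of_lt
      · positivity
      · push_cast; linarith
    linarith
  refine no_descending (fun n => c ⟨2 + 1 / ((n : ℚ) + 1), hpos n⟩) (fun n => ?_) (fun n hn => ?_)
  · exact hc _ _ (hlt n).le
  · have h1 := hmono _ _ hn
    have h2 : (f (c ⟨2 + 1 / ((n : ℚ) + 1), hpos n⟩) : ℝ) ≤
        f (c ⟨2 + 1 / (((n + 1 : ℕ) : ℚ) + 1), hpos (n + 1)⟩) := by exact_mod_cast h1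
    rw [hq, hq] at h2
    have h3 : (2 : ℚ) + 1 / ((n : ℚ) + 1) ≤ 2 + 1 / (((n + 1 : ℕ) : ℚ) + 1) := by
      exact_mod_cast h2
    exact absurd (hlt n) (not_lt.2 h3)
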