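import Mathlib
import Pool.Agent.H19.Tensor

open Pool.Agent.H19.Tensor

theorem Pool.Agent.Results.MP_176834_co.NotUniversal.result (F : Type*) [Field F] :
    ¬ ∀ (P : Type) [Countable P] [Preorder P],
      ∃ φ : P → Tensor3 F, ∀ x y : P, x ≤ y ↔ Restricts (φ x) (φ y) := by
  intro h
  obtain ⟨φ, hφ⟩ := h ℕᵒᵈ
  refine no_descending (fun n => φ (OrderDual.toDual n)) (fun n => ?_) (fun n hn => ?_)
  · exact (hφ _ _).1 (OrderDual.toDual_le_toDual.2 (Nat.le_succ n))
  · have := OrderDual.toDual_le_toDual.1 ((hφ _ _).2 hn)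
    omega
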